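import Pool.Agent.Y461.KM.Stm

/-! Project KM: the Hilbert-Serre theorem with exact denominator. -/

set_option autoImplicit false

namespace Pool.Agent.Y38.KM

open MvPolynomial Pool.Agent.Y461.KM

variable {ι σ : Type}

/-- multiplication by a polynomial -/
noncomputable def ml (f : MvPolynomial σ ℚ) :
    (ι → MvPolynomial σ ℚ) →ₗ[ℚ] (ι → MvPolynomial σ ℚ) where
  toFun Φ := f • Φ
  map_add' := smul_add f
  map_smul' r Φ := by
    funext c
    simp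

theorem ml_apply (f : MvPolynomial σ ℚ) (Φ : ι → MvPolynomial σ ℚ) : ml f Φ = f • Φ := rfl

/-- homogeneous components -/
noncomputable def hcL (k : ℕ) : (ι → MvPolynomial σ ℚ) →ₗ[ℚ] (ι → MvPolynomial σ ℚ) where
  toFun := hc k
  map_add' Φ Ψ := by
    funext c
    simp [hc]
  map_smul' r Φ := by
    funext c
    simp [hc]

theorem hcL_apply (k : ℕ) (Φ : ι → MvPolynomial σ ℚ) : hcL k Φ = hc k Φ := rfl

theorem mem_hk {k : ℕ} {Φ : ι → MvPolynomial σ ℚ} :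
    Φ ∈ hk ι σ k ↔ ∀ c, (Φ c).IsHomogeneous k := by
  unfold hk
  simp [Submodule.mem_pi]

theorem hc_mem (k : ℕ) (Φ : ι → MvPolynomial σ ℚ) : hc k Φ ∈ hk ι σ k :=
  mem_hk.2 fun c => homogeneousComponent_isHomogeneous k _

theorem hc_of_mem {j k : ℕ} {Φ : ι → MvPolynomial σ ℚ} (h : Φ ∈ hk ι σ j) :
    hc k Φ = if k = j then Φ else 0 := by
  funext c
  unfold hc
  rw [homogeneousComponent_of_mem ((mem_homogeneousSubmodule _ _).2 (mem_hk.1 h c))]
  split_ifs <;> rfl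

theorem hom_mul (f p : MvPolynomial σ ℚ) {d : ℕ} (hf : f.IsHomogeneous d) (n : ℕ) :
    homogeneousComponent n (f * p) =
      if d ≤ n then f * homogeneousComponent (n - d) p else 0 := by
  have h1 : ∀ i, homogeneousComponent n (f * homogeneousComponent i p) =
      if n = d + i then f * homogeneousComponent i p else 0 := fun i =>
    homogeneousComponent_of_mem ((mem_homogeneousSubmodule _ _).2
      (hf.mul (homogeneousComponent_isHomogeneous i p)))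
  conv_lhs => rw [← sum_homogeneousComponent p, Finset.mul_sum, map_sum]
  rw [Finset.sum_congr rfl (fun i _ => h1 i)]
  split_ifs with hd
  · by_cases h2 : n - d ∈ Finset.range (p.totalDegree + 1)
    · rw [Finset.sum_eq_single (n - d)]
      · rw [if_pos (by omega)]
      · intro b _ hb
        rw [if_neg (by omega)]
      · intro h3
        exact absurd h2 h3
    · rw [Finset.mem_range] at h2
      rw [homogeneousComponent_eq_zero _ _ (by omega : p.totalDegree < n - d), mul_zero]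
      refine Finset.sum_eq_zero (fun i hi => ?_)
      rw [Finset.mem_range] at hi
      rw [if_neg (by omega)]
  · refine Finset.sum_eq_zero (fun i _ => ?_)
    rw [if_neg (by omega)]

theorem hc_smul {f : MvPolynomial σ ℚ} {d : ℕ} (hf : f.IsHomogeneous d) (n : ℕ)
    (Φ : ι → MvPolynomial σ ℚ) :
    hc n (f • Φ) = if d ≤ n then f • hc (n - d) Φ else 0 := by
  funext c
  have h := hom_mul f (Φ c) hf n
  unfold hc
  rw [Pi.smul_apply, smul_eq_mul, h]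
  split_ifs <;> rfl

theorem rk {V W : Type*} [AddCommGroup V] [Module ℚ V] [AddCommGroup W] [Module ℚ W]
    (f : V →ₗ[ℚ] W) (X : Submodule ℚ V) [FiniteDimensional ℚ X] :
    Module.finrank ℚ (X.map f) + Module.finrank ℚ (X ⊓ LinearMap.ker f : Submodule ℚ V) =
      Module.finrank ℚ X := by
  have h := LinearMap.finrank_range_add_finrank_ker (f.domRestrict X)
  have e1 : LinearMap.range (f.domRestrict X) = X.map f := by
    rw [LinearMap.range_domRestrict]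
  have e2 : Submodule.map X.subtype (LinearMap.ker (f.domRestrict X)) = X ⊓ LinearMap.ker f := by
    rw [LinearMap.ker_domRestrict, Submodule.map_comap_subtype]
  rw [e1, ← Submodule.finrank_map_subtype_eq X (LinearMap.ker (f.domRestrict X)), e2] at h
  exact h

instance fin_hk [Fintype ι] [Fintype σ] (k : ℕ) : FiniteDimensional ℚ (hk ι σ k) :=
  Module.Finite.iff_fg.2 (Submodule.fg_pi fun _ => homogeneousSubmodule_fg σ ℚ k)

theorem fin_inf [Fintype ι] [Fintype σ] (X : Submodule ℚ (ι → MvPolynomial σ ℚ)) (k : ℕ) :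
    FiniteDimensional ℚ (X ⊓ hk ι σ k : Submodule ℚ (ι → MvPolynomial σ ℚ)) :=
  Submodule.finiteDimensional_of_le inf_le_right

section Step

variable [Fintype ι] [Fintype σ] {f : MvPolynomial σ ℚ} {d : ℕ} (hf : f.IsHomogeneous d)
  {Z B : Submodule ℚ (ι → MvPolynomial σ ℚ)}

include hf in
theorem dim_eq (gZ : ∀ k, ∀ Φ ∈ Z, hc k Φ ∈ Z) (gB : ∀ k, ∀ Φ ∈ B, hc k Φ ∈ B) (k : ℕ) :
    Module.finrank ℚ ↥(Z ⊓ hk ι σ k) + Module.finrank ℚ ↥(B ⊓ hk ι σ (k + d)) =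
      Module.finrank ℚ ↥((Z ⊓ B.comap (ml f)) ⊓ hk ι σ k) +
        Module.finrank ℚ ↥((Z.map (ml f) ⊔ B) ⊓ hk ι σ (k + d)) := by
  have := fin_inf Z k
  have := fin_inf (Z.map (ml f) ⊔ B) (k + d)
  have h1 := rk (B.mkQ.comp (ml f)) (Z ⊓ hk ι σ k)
  have h2 := rk B.mkQ ((Z.map (ml f) ⊔ B) ⊓ hk ι σ (k + d))
  have e1 : (Z ⊓ hk ι σ k) ⊓ LinearMap.ker (B.mkQ.comp (ml f)) =
      (Z ⊓ B.comap (ml f)) ⊓ hk ι σ k := by
    rw [LinearMap.ker_comp, Submodule.ker_mkQ, inf_right_comm]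
  have e2 : ((Z.map (ml f) ⊔ B) ⊓ hk ι σ (k + d)) ⊓ LinearMap.ker B.mkQ =
      B ⊓ hk ι σ (k + d) := by
    rw [Submodule.ker_mkQ, inf_right_comm, inf_eq_right.2 (le_sup_right : B ≤ _)]
  have e3 : Submodule.map (B.mkQ.comp (ml f)) (Z ⊓ hk ι σ k) =
      Submodule.map B.mkQ ((Z.map (ml f) ⊔ B) ⊓ hk ι σ (k + d)) := by
    apply le_antisymm
    · rintro _ ⟨Φ, ⟨hΦ1, hΦ2⟩, rfl⟩
      refine ⟨ml f Φ, ⟨Submodule.mem_sup_left ⟨Φ, hΦ1, rfl⟩, ?_⟩, rfl⟩
      refine mem_hk.2 fun c => ?_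
      rw [add_comm k d]
      exact hf.mul (mem_hk.1 hΦ2 c)
    · rintro _ ⟨Ψ, ⟨hΨ1, hΨ2⟩, rfl⟩
      obtain ⟨_, ⟨Φ, hΦ, rfl⟩, b, hb, he⟩ := Submodule.mem_sup.1 hΨ1
      have h3 : hc (k + d) Ψ = Ψ := by rw [hc_of_mem hΨ2, if_pos rfl]
      have h4 : hc (k + d) Ψ = f • hc k Φ + hc (k + d) b := by
        rw [← he, ← hcL_apply, map_add, hcL_apply, hcL_apply, ml_apply, hc_smul hf,
          if_pos (by omega), Nat.add_sub_cancel]
      refine ⟨hc k Φ, ⟨gZ k Φ hΦ, hc_mem k Φ⟩, ?_⟩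
      have h5 : B.mkQ (hc (k + d) b) = 0 := by
        rw [← LinearMap.mem_ker, Submodule.ker_mkQ]
        exact gB _ _ hb
      show B.mkQ (f • hc k Φ) = B.mkQ Ψ
      rw [← h3, h4, map_add, h5, add_zero]
  rw [e1, e3] at h1
  rw [e2] at h2
  omega

include hf in
theorem dim_lt (gB : ∀ k, ∀ Φ ∈ B, hc k Φ ∈ B) {k : ℕ} (hk' : k < d) :
    Module.finrank ℚ ↥((Z.map (ml f) ⊔ B) ⊓ hk ι σ k) =
      Module.finrank ℚ ↥(B ⊓ hk ι σ k) := by
  have e : (Z.map (ml f) ⊔ B) ⊓ hk ι σ k = B ⊓ hk ι σ k := by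
    apply le_antisymm
    · rintro Ψ ⟨hΨ1, hΨ2⟩
      obtain ⟨_, ⟨Φ, hΦ, rfl⟩, b, hb, he⟩ := Submodule.mem_sup.1 hΨ1
      refine ⟨?_, hΨ2⟩
      have h3 : hc k Ψ = Ψ := by rw [hc_of_mem hΨ2, if_pos rfl]
      have h4 : hc k Ψ = hc k b := by
        rw [← he, ← hcL_apply, map_add, hcL_apply, hcL_apply, ml_apply, hc_smul hf,
          if_neg (by omega), zero_add]
      rw [← h3, h4]
      exact gB _ _ hb
    · exact inf_le_inf_right _ le_sup_right
  rw [e]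

end Step

theorem gf_step (z b c e : ℕ → ℕ) (d : ℕ) (h1 : ∀ k, z k + b (k + d) = e k + c (k + d))
    (h2 : ∀ k, k < d → c k = b k) :
    (gf z - gf b) * (1 - PowerSeries.X ^ d) = (gf z - gf c) - (gf e - gf b) * PowerSeries.X ^ d := by
  rw [mul_sub, mul_one]
  ext n
  simp only [map_sub, PowerSeries.coeff_mul_X_pow', gf, PowerSeries.coeff_mk]
  split_ifs with h
  · obtain ⟨k, rfl⟩ : ∃ k, n = k + d := ⟨n - d, by omega⟩
    rw [Nat.add_sub_cancel]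
    have h3 : (z k : ℚ) + b (k + d) = e k + c (k + d) := by exact_mod_cast h1 k
    linarith
  · have h3 : (c n : ℚ) = b n := by exact_mod_cast h2 n (by omega)
    rw [h3]

theorem ind [Fintype ι] [Fintype σ] : ∀ (l : ℕ) (θ : Fin l → MvPolynomial σ ℚ) (d : Fin l → ℕ)
    (_ : ∀ i, (θ i).IsHomogeneous (d i))
    (Z B : Submodule ℚ (ι → MvPolynomial σ ℚ)) (_ : B ≤ Z)
    (_ : ∀ i, ∀ Φ ∈ Z, θ i • Φ ∈ Z) (_ : ∀ i, ∀ Φ ∈ B, θ i • Φ ∈ B)
    (_ : ∀ k, ∀ Φ ∈ Z, hc k Φ ∈ Z) (_ : ∀ k, ∀ Φ ∈ B, hc k Φ ∈ B)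
    (_ : ∀ D : ℕ → Submodule ℚ (ι → MvPolynomial σ ℚ), Monotone D → (∀ n, B ≤ D n) →
      (∀ n, D n ≤ Z) → (∀ n i, ∀ Φ ∈ D n, θ i • Φ ∈ D n) → ∃ n, ∀ m, n ≤ m → D m = D n),
    ∃ N : Polynomial ℚ,
      (gf (fun k => Module.finrank ℚ ↥(Z ⊓ hk ι σ k)) -
        gf (fun k => Module.finrank ℚ ↥(B ⊓ hk ι σ k))) * ∏ i, (1 - PowerSeries.X ^ d i)
        = (N : PowerSeries ℚ) := by
  intro l
  induction l with
  | zero =>
    intro θ d _ Z B hBZ _ _ gZ gB acc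
    obtain ⟨D, hD⟩ : ∃ D : ℕ → Submodule ℚ (ι → MvPolynomial σ ℚ),
        D = fun n => B ⊔ ⨆ j ∈ Finset.range n, Z ⊓ hk ι σ j := ⟨_, rfl⟩
    obtain ⟨n0, hn0⟩ := acc D (by
        rw [hD]
        intro m n hmn
        refine sup_le_sup_left ?_ _
        refine iSup_mono fun j => ?_
        refine iSup_le fun hj => ?_
        have hj' : j ∈ Finset.range n := by
          rw [Finset.mem_range] at hj ⊢
          omega
        exact le_iSup (fun _ : j ∈ Finset.range n => Z ⊓ hk ι σ j) hj')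
      (fun n => by rw [hD]; exact le_sup_left)
      (fun n => by
        rw [hD]
        exact sup_le hBZ (iSup_le fun j => iSup_le fun _ => inf_le_left))
      (fun n i => i.elim0)
    have key : ∀ k, n0 ≤ k → Z ⊓ hk ι σ k = B ⊓ hk ι σ k := by
      intro k hk'
      apply le_antisymm
      · rintro Φ ⟨h1, h2⟩
        refine ⟨?_, h2⟩
        have h3 : Φ ∈ D (k + 1) := by
          rw [hD]
          refine Submodule.mem_sup_right ?_
          have h4 : Z ⊓ hk ι σ k ≤ ⨆ j ∈ Finset.range (k + 1), Z ⊓ hk ι σ j :=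
            le_biSup (fun j => Z ⊓ hk ι σ j) (Finset.self_mem_range_succ k)
          exact h4 ⟨h1, h2⟩
        rw [hn0 (k + 1) (by omega), hD] at h3
        obtain ⟨b, hb, u, hu, he⟩ := Submodule.mem_sup.1 h3
        have h5 : (⨆ j ∈ Finset.range n0, Z ⊓ hk ι σ j) ≤ LinearMap.ker (hcL (ι := ι) (σ := σ) k) := by
          refine iSup_le fun j => iSup_le fun hj => ?_
          rintro Ψ ⟨_, hΨ⟩
          rw [Finset.mem_range] at hj
          rw [LinearMap.mem_ker, hcL_apply, hc_of_mem hΨ, if_neg (by omega)]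
        have h6 := LinearMap.mem_ker.1 (h5 hu)
        have h7 : Φ = hc k b := by
          have h8 : hc k Φ = Φ := by rw [hc_of_mem h2, if_pos rfl]
          rw [← h8, ← he, ← hcL_apply, map_add, h6, add_zero, hcL_apply]
        rw [h7]
        exact gB _ _ hb
      · exact inf_le_inf_right _ hBZ
    refine ⟨PowerSeries.trunc n0 (gf (fun k => Module.finrank ℚ ↥(Z ⊓ hk ι σ k)) -
        gf (fun k => Module.finrank ℚ ↥(B ⊓ hk ι σ k))), ?_⟩
    rw [Finset.univ_eq_empty, Finset.prod_empty, mul_one]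
    ext n
    rw [Polynomial.coeff_coe, PowerSeries.coeff_trunc]
    split_ifs with h
    · rfl
    · rw [map_sub]
      unfold gf
      rw [PowerSeries.coeff_mk, PowerSeries.coeff_mk]
      show ((Module.finrank ℚ ↥(Z ⊓ hk ι σ n) : ℕ) : ℚ) -
        ((Module.finrank ℚ ↥(B ⊓ hk ι σ n) : ℕ) : ℚ) = 0
      rw [key n (by omega), sub_self]
  | succ l ih =>
    intro θ d hθ Z B hBZ sZ sB gZ gB acc
    have hf := hθ (Fin.last l)
    obtain ⟨f, hfd⟩ : ∃ f, f = θ (Fin.last l) := ⟨_, rfl⟩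
    rw [← hfd] at hf
    have sZf : ∀ Φ ∈ Z, f • Φ ∈ Z := by rw [hfd]; exact sZ _
    have sBf : ∀ Φ ∈ B, f • Φ ∈ B := by rw [hfd]; exact sB _
    -- the pair `Z`, `C`
    have hCZ : Z.map (ml f) ⊔ B ≤ Z := by
      refine sup_le ?_ hBZ
      rintro _ ⟨Φ, hΦ, rfl⟩
      exact sZf Φ hΦ
    have sC : ∀ i : Fin l, ∀ Φ ∈ Z.map (ml f) ⊔ B,
        θ i.castSucc • Φ ∈ Z.map (ml f) ⊔ B := by
      intro i Ψ hΨ
      obtain ⟨_, ⟨Φ, hΦ, rfl⟩, b, hb, rfl⟩ := Submodule.mem_sup.1 hΨ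
      rw [smul_add]
      refine Submodule.add_mem _ (Submodule.mem_sup_left ⟨θ i.castSucc • Φ, sZ _ _ hΦ, ?_⟩)
        (Submodule.mem_sup_right (sB _ _ hb))
      rw [ml_apply, ml_apply, smul_comm]
    have gC : ∀ k, ∀ Φ ∈ Z.map (ml f) ⊔ B, hc k Φ ∈ Z.map (ml f) ⊔ B := by
      intro k Ψ hΨ
      obtain ⟨_, ⟨Φ, hΦ, rfl⟩, b, hb, rfl⟩ := Submodule.mem_sup.1 hΨ
      rw [← hcL_apply, map_add, hcL_apply, hcL_apply, ml_apply, hc_smul hf]
      refine Submodule.add_mem _ ?_ (Submodule.mem_sup_right (gB _ _ hb))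
      split_ifs
      · exact Submodule.mem_sup_left ⟨hc (k - d (Fin.last l)) Φ, gZ _ _ hΦ, rfl⟩
      · exact Submodule.zero_mem _
    obtain ⟨N1, hN1⟩ := ih (fun i => θ i.castSucc) (fun i => d i.castSucc)
      (fun i => hθ _) Z (Z.map (ml f) ⊔ B) hCZ (fun i => sZ _) sC gZ gC (by
        intro D hD1 hD2 hD3 hD4
        refine acc D hD1 (fun n => le_sup_right.trans (hD2 n)) hD3 (fun n i Φ hΦ => ?_)
        refine Fin.lastCases ?_ (fun i => ?_) i
        · refine hD2 n (Submodule.mem_sup_left ⟨Φ, hD3 n hΦ, ?_⟩)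
          rw [ml_apply, hfd]
        · exact hD4 n i Φ hΦ)
    -- the pair `K`, `B`
    have sK : ∀ i : Fin l, ∀ Φ ∈ Z ⊓ B.comap (ml f), θ i.castSucc • Φ ∈ Z ⊓ B.comap (ml f) := by
      rintro i Φ ⟨h1, h2⟩
      refine ⟨sZ _ _ h1, ?_⟩
      have h3 : f • Φ ∈ B := h2
      show f • (θ i.castSucc • Φ) ∈ B
      rw [smul_comm]
      exact sB _ _ h3
    have gK : ∀ k, ∀ Φ ∈ Z ⊓ B.comap (ml f), hc k Φ ∈ Z ⊓ B.comap (ml f) := by
      rintro k Φ ⟨h1, h2⟩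
      refine ⟨gZ _ _ h1, ?_⟩
      have h3 : f • Φ ∈ B := h2
      show f • hc k Φ ∈ B
      have h4 := hc_smul hf (k + d (Fin.last l)) Φ
      rw [if_pos (by omega), Nat.add_sub_cancel] at h4
      rw [← h4]
      exact gB _ _ h3
    obtain ⟨N2, hN2⟩ := ih (fun i => θ i.castSucc) (fun i => d i.castSucc)
      (fun i => hθ _) (Z ⊓ B.comap (ml f)) B (le_inf hBZ (fun Φ hΦ => sBf Φ hΦ)) sK
      (fun i => sB _) gK gB (by
        intro D hD1 hD2 hD3 hD4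
        refine acc D hD1 hD2 (fun n => (hD3 n).trans inf_le_left) (fun n i Φ hΦ => ?_)
        refine Fin.lastCases ?_ (fun i => ?_) i
        · have h3 : f • Φ ∈ B := (hD3 n hΦ).2
          rw [← hfd]
          exact hD2 n h3
        · exact hD4 n i Φ hΦ)
    refine ⟨N1 - N2 * Polynomial.X ^ d (Fin.last l), ?_⟩
    have h5 := gf_step (fun k => Module.finrank ℚ ↥(Z ⊓ hk ι σ k))
      (fun k => Module.finrank ℚ ↥(B ⊓ hk ι σ k))
      (fun k => Module.finrank ℚ ↥((Z.map (ml f) ⊔ B) ⊓ hk ι σ k))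
      (fun k => Module.finrank ℚ ↥((Z ⊓ B.comap (ml f)) ⊓ hk ι σ k)) (d (Fin.last l))
      (fun k => dim_eq hf gZ gB k) (fun k hk' => dim_lt hf gB hk')
    rw [Fin.prod_univ_castSucc, mul_comm (∏ i : Fin l, _), ← mul_assoc, h5, sub_mul, hN1,
      mul_right_comm, hN2, Polynomial.coe_sub, Polynomial.coe_mul, Polynomial.coe_pow,
      Polynomial.coe_X]

theorem adj_stable {l : ℕ} (θ : Fin l → MvPolynomial σ ℚ)
    (D : Submodule ℚ (ι → MvPolynomial σ ℚ)) (h : ∀ i, ∀ Φ ∈ D, θ i • Φ ∈ D)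
    (t : MvPolynomial σ ℚ) (ht : t ∈ Algebra.adjoin ℚ (Set.range θ)) :
    ∀ Φ ∈ D, t • Φ ∈ D := by
  induction ht using Algebra.adjoin_induction with
  | mem x hx =>
    obtain ⟨i, rfl⟩ := hx
    exact h i
  | algebraMap r =>
    intro Φ hΦ
    rw [algebraMap_smul]
    exact D.smul_mem r hΦ
  | add x y _ _ hx hy =>
    intro Φ hΦ
    rw [add_smul]
    exact D.add_mem (hx Φ hΦ) (hy Φ hΦ)
  | mul x y _ _ hx hy =>
    intro Φ hΦ
    rw [mul_smul]
    exact hx _ (hy Φ hΦ)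

/-- a stable subspace as a module over the algebra -/
noncomputable def upm {l : ℕ} (θ : Fin l → MvPolynomial σ ℚ)
    (D : Submodule ℚ (ι → MvPolynomial σ ℚ)) (h : ∀ i, ∀ Φ ∈ D, θ i • Φ ∈ D) :
    Submodule (Algebra.adjoin ℚ (Set.range θ)) (ι → MvPolynomial σ ℚ) where
  carrier := D
  add_mem' := D.add_mem
  zero_mem' := D.zero_mem
  smul_mem' := fun t Φ hΦ => adj_stable θ D h t.1 t.2 Φ hΦ

theorem mem_upm {l : ℕ} {θ : Fin l → MvPolynomial σ ℚ}
    {D : Submodule ℚ (ι → MvPolynomial σ ℚ)} {h : ∀ i, ∀ Φ ∈ D, θ i • Φ ∈ D}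
    {Φ : ι → MvPolynomial σ ℚ} : Φ ∈ upm θ D h ↔ Φ ∈ D := Iff.rfl

theorem hs : S_HS := by
  intro ι σ _ _ l θ d _ hθ Z B hBZ sZ sB gZ gB G hG
  refine ind l θ d hθ Z B hBZ sZ sB gZ gB ?_
  intro D hD1 hD2 hD3 hD4
  have : IsNoetherianRing (Algebra.adjoin ℚ (Set.range θ)) :=
    isNoetherianRing_of_fg (Subalgebra.fg_def.2 ⟨_, Set.finite_range θ, rfl⟩)
  obtain ⟨Bm, hBm⟩ : ∃ Bm, Bm = upm θ B sB := ⟨_, rfl⟩
  have hfg : ((Submodule.span (Algebra.adjoin ℚ (Set.range θ))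
      (G : Set (ι → MvPolynomial σ ℚ))).map Bm.mkQ).FG :=
    (Submodule.fg_span (Finset.finite_toSet G)).map _
  obtain ⟨Y, hY⟩ : ∃ Y, Y = (Submodule.span (Algebra.adjoin ℚ (Set.range θ))
      (G : Set (ι → MvPolynomial σ ℚ))).map Bm.mkQ := ⟨_, rfl⟩
  rw [← hY] at hfg
  have : IsNoetherian (Algebra.adjoin ℚ (Set.range θ)) Y :=
    isNoetherian_of_fg_of_noetherian Y hfg
  have hmono : Monotone (fun n => ((upm θ (D n) (hD4 n)).map Bm.mkQ).comap Y.subtype) := by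
    intro m n hmn
    refine Submodule.comap_mono (Submodule.map_mono ?_)
    intro Φ hΦ
    exact hD1 hmn hΦ
  obtain ⟨n, hn⟩ := (monotone_stabilizes_iff_noetherian (R := Algebra.adjoin ℚ (Set.range θ))
    (M := Y)).2 inferInstance ⟨_, hmono⟩
  refine ⟨n, fun m hm => le_antisymm ?_ (hD1 hm)⟩
  intro Φ hΦ
  obtain ⟨a, ha1, ha2⟩ := hG Φ (hD3 m hΦ)
  have h1 : Bm.mkQ Φ ∈ Y := by
    rw [hY]
    refine ⟨∑ g ∈ G, a g • g, ?_, ?_⟩
    · refine Submodule.sum_mem _ fun g hg => ?_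
      exact Submodule.smul_mem _ (⟨a g, ha1 g⟩ : Algebra.adjoin ℚ (Set.range θ))
        (Submodule.subset_span hg)
    · have h2 : Φ - ∑ g ∈ G, a g • g ∈ Bm := by
        rw [hBm]
        exact ha2
      have h3 : Bm.mkQ (Φ - ∑ g ∈ G, a g • g) = 0 := by
        rw [← LinearMap.mem_ker, Submodule.ker_mkQ]
        exact h2
      rw [map_sub, sub_eq_zero] at h3
      exact h3.symm
  have h2 : (⟨Bm.mkQ Φ, h1⟩ : Y) ∈ ((upm θ (D m) (hD4 m)).map Bm.mkQ).comap Y.subtype :=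
    ⟨Φ, hΦ, rfl⟩
  have h3 : ((upm θ (D n) (hD4 n)).map Bm.mkQ).comap Y.subtype =
      ((upm θ (D m) (hD4 m)).map Bm.mkQ).comap Y.subtype := hn m hm
  rw [← h3] at h2
  obtain ⟨Ψ, hΨ, he⟩ := h2
  have h4 : Bm.mkQ (Φ - Ψ) = 0 := by
    rw [map_sub, sub_eq_zero]
    exact he.symm
  rw [← LinearMap.mem_ker, Submodule.ker_mkQ, hBm] at h4
  have h5 : Φ - Ψ ∈ D n := hD2 n h4
  have h6 : Ψ ∈ D n := hΨ
  have h7 := (D n).add_mem h5 h6
  rwa [sub_add_cancel] at h7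

end Pool.Agent.Y38.KM
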